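import Pool.Agent.Y658.VR.Fun

/-!
# Functorial realization of conical commutative monoids over every field

The starting result `Functorial` gives one functor from conical commutative monoids to rings which
is a right inverse of `V`. Here, for EVERY field `K`:

* (1) there is such a functor with values in `K`-algebras and `K`-linear homomorphisms;
* (2) there is a functor from the category of conical commutative monoids with an order-unit (all
  homomorphisms which preserve the order-unit) to UNITAL `K`-algebras and unital `K`-algebra
  homomorphisms which is a right inverse of `A ↦ (V(A), [1])`.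

`VV R` is the monoid `V(R)` of the equivalence classes of idempotent matrices, `Vfun` the functor
`V`, `toRng K` forgets the scalars, `V1 K` is the functor `A ↦ (V(A), [1])` on Mathlib's category
`AlgCat K` of unital `K`-algebras (it is part of its definition that `[1]` is an order-unit).
-/

set_option autoImplicit false

open CategoryTheory Pool.Agent.H494R3.VR Pool.Agent.Y658.VR

/-- For every field `K`, the functor `V` has a functorial right inverse on conical commutative
monoids with values in `K`-algebras, and `A ↦ (V(A), [1])` has a functorial right inverse on conical
commutative monoids with order-unit with values in unital `K`-algebras. -/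
theorem Pool.Agent.Results.MP_85b181_al.OverEveryField.result (K : Type) [Field K] :
    (∃ Ψ : ConMon ⥤ KRng K, Nonempty (Ψ ⋙ toRng K ⋙ Vfun ≅ 𝟭 ConMon)) ∧
      ∃ Φ : UMon ⥤ AlgCat.{0} K, Nonempty (Φ ⋙ V1 K ≅ 𝟭 UMon) :=
  ⟨⟨PsiK K, ⟨isoK K⟩⟩, ⟨Psi1 K, ⟨iso1 K⟩⟩⟩
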